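import Pool.Agent.helper27.TD.Spec

/-!
# Row CRV: points with vanishing determinants lie on a curve of bidegree (1, b)
-/

set_option autoImplicit false

namespace Pool.Agent.helper27.TD

open Finset Polynomial

theorem CRV_rel (b : ℕ) (c : Fin 2 → ℚ[X]) (hc : ∀ i, (c i).natDegree ≤ b) (g n u v : ℚ)
    (hv : v ≠ 0) :
    ∑ s : Ix b, mon b g n u v s * (c s.1).coeff (b - (s.2 : ℕ)) =
      v ^ b * (g * (c 0).eval (u / v) + n * (c 1).eval (u / v)) := by
  have key : ∀ i, ∑ l : Fin (b + 1), u ^ (b - (l : ℕ)) * v ^ (l : ℕ) * (c i).coeff (b - (l : ℕ)) =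
      v ^ b * (c i).eval (u / v) := by
    intro i
    rw [eval_eq_sum_range' (Nat.lt_succ_of_le (hc i)), Finset.mul_sum,
      Fin.sum_univ_eq_sum_range (fun l => u ^ (b - l) * v ^ l * (c i).coeff (b - l)) (b + 1),
      ← Finset.sum_range_reflect]
    refine Finset.sum_congr rfl fun l hl => ?_
    have hl' : l ≤ b := Nat.lt_succ_iff.1 (Finset.mem_range.1 hl)
    have e2 : b + 1 - 1 - l = b - l := by omega
    have e1 : b - (b - l) = l := by omega
    rw [e2, e1, div_pow]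
    have e3 : v ^ b = v ^ (b - l) * v ^ l := by rw [← pow_add, Nat.sub_add_cancel hl']
    rw [e3]
    have e4 : v ^ l ≠ 0 := pow_ne_zero _ hv
    field_simp
  rw [Fintype.sum_prod_type, Fin.sum_univ_two]
  have h0 : ∑ l : Fin (b + 1), mon b g n u v ((0 : Fin 2), l) * (c 0).coeff (b - (l : ℕ)) =
      g * (v ^ b * (c 0).eval (u / v)) := by
    rw [← key 0, Finset.mul_sum]
    refine Finset.sum_congr rfl fun l _ => ?_
    simp only [mon, Fin.val_zero, Nat.sub_zero, pow_one, pow_zero, mul_one]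
    ring
  have h1 : ∑ l : Fin (b + 1), mon b g n u v ((1 : Fin 2), l) * (c 1).coeff (b - (l : ℕ)) =
      n * (v ^ b * (c 1).eval (u / v)) := by
    rw [← key 1, Finset.mul_sum]
    refine Finset.sum_congr rfl fun l _ => ?_
    simp only [mon, Fin.val_one, Nat.sub_self, pow_one, pow_zero, one_mul]
    ring
  show ∑ l : Fin (b + 1), mon b g n u v ((0 : Fin 2), l) * (c 0).coeff (b - (l : ℕ)) +
    ∑ l : Fin (b + 1), mon b g n u v ((1 : Fin 2), l) * (c 1).coeff (b - (l : ℕ)) = _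
  rw [h0, h1]
  ring

theorem CRV_coeff (b : ℕ) (a : Fin (b + 1) → ℤ) (m : ℕ) :
    (∑ j : Fin (b + 1), monomial (j : ℕ) (a j)).coeff m =
      if h : m < b + 1 then a ⟨m, h⟩ else 0 := by
  rw [finsetSum_coeff]
  simp only [coeff_monomial]
  split_ifs with h
  · rw [Finset.sum_eq_single (⟨m, h⟩ : Fin (b + 1))]
    · simp
    · intro j _ hj
      rw [if_neg]
      intro h'
      exact hj (Fin.ext h')
    · intro h'
      exact absurd (Finset.mem_univ _) h'
  · refine Finset.sum_eq_zero fun j _ => ?_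
    rw [if_neg]
    have := j.2
    omega

theorem CRV_mon_cast (b : ℕ) (P : Pt) (s : Ix b) :
    ((mon b (P 0) (P 1) (P 2) (P 3) s : ℤ) : ℚ) =
      mon b (P 0 : ℚ) (P 1 : ℚ) (P 2 : ℚ) (P 3 : ℚ) s := by
  simp only [mon]
  push_cast
  ring

theorem CRV_mon_le (b H : ℕ) (hH : 1 ≤ H) (P : Pt) (hP : ∀ i, |P i| ≤ H) (s : Ix b) :
    |mon b (P 0) (P 1) (P 2) (P 3) s| ≤ ((H ^ (b + 1) : ℕ) : ℤ) := by
  have hH' : (1 : ℤ) ≤ (H : ℤ) := by exact_mod_cast hH
  have h1 : ∀ (i : Fin 4) (e : ℕ), |P i ^ e| ≤ (H : ℤ) ^ e := by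
    intro i e
    rw [abs_pow]
    exact pow_le_pow_left₀ (abs_nonneg _) (hP i) e
  have hs1 : (s.1 : ℕ) ≤ 1 := Nat.lt_succ_iff.1 s.1.2
  have hs2 : (s.2 : ℕ) ≤ b := Nat.lt_succ_iff.1 s.2.2
  simp only [mon]
  rw [abs_mul, abs_mul, abs_mul]
  have h2 : |P 0 ^ (1 - (s.1 : ℕ))| * |P 1 ^ (s.1 : ℕ)| ≤ (H : ℤ) := by
    calc |P 0 ^ (1 - (s.1 : ℕ))| * |P 1 ^ (s.1 : ℕ)|
        ≤ (H : ℤ) ^ (1 - (s.1 : ℕ)) * (H : ℤ) ^ (s.1 : ℕ) :=
          mul_le_mul (h1 0 _) (h1 1 _) (abs_nonneg _) (by positivity)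
      _ = (H : ℤ) := by rw [← pow_add, Nat.sub_add_cancel hs1, pow_one]
  have h3 : |P 2 ^ (b - (s.2 : ℕ))| * |P 3 ^ (s.2 : ℕ)| ≤ (H : ℤ) ^ b := by
    calc |P 2 ^ (b - (s.2 : ℕ))| * |P 3 ^ (s.2 : ℕ)|
        ≤ (H : ℤ) ^ (b - (s.2 : ℕ)) * (H : ℤ) ^ (s.2 : ℕ) :=
          mul_le_mul (h1 2 _) (h1 3 _) (abs_nonneg _) (by positivity)
      _ = (H : ℤ) ^ b := by rw [← pow_add, Nat.sub_add_cancel hs2]
  calc |P 0 ^ (1 - (s.1 : ℕ))| * |P 1 ^ (s.1 : ℕ)| * (|P 2 ^ (b - (s.2 : ℕ))| * |P 3 ^ (s.2 : ℕ)|)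
      ≤ (H : ℤ) * (H : ℤ) ^ b := mul_le_mul h2 h3 (by positivity) (by positivity)
    _ = ((H ^ (b + 1) : ℕ) : ℤ) := by push_cast; ring

theorem CRV_const {C C' H : ℕ} (h : C ≤ C') (hH : 1 ≤ H) :
    ((C : ℕ) : ℤ) * (H : ℤ) ^ C ≤ (C' : ℤ) * (H : ℤ) ^ C' := by
  have h1 : C * H ^ C ≤ C' * H ^ C' := Nat.mul_le_mul h (Nat.pow_le_pow_right hH h)
  exact_mod_cast h1

/-- the vanishing of the determinants from a relation -/
theorem CRV_det (b : ℕ) (q : Fin 2 → ℚ[X]) (hq : ∀ i, (q i).natDegree ≤ b) (hne : q 0 ≠ 0 ∨ q 1 ≠ 0)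
    (Q : Ix b → Pt) (h3 : ∀ i, Q i 3 ≠ 0)
    (hrel : ∀ i, (Q i 0 : ℚ) * (q 0).eval ((Q i 2 : ℚ) / Q i 3) +
      (Q i 1 : ℚ) * (q 1).eval ((Q i 2 : ℚ) / Q i 3) = 0) : (mat b Q).det = 0 := by
  have key : ((Int.castRingHom ℚ).mapMatrix (mat b Q)).det = 0 := by
    rw [← Matrix.exists_mulVec_eq_zero_iff]
    refine ⟨fun s => (q s.1).coeff (b - (s.2 : ℕ)), ?_, ?_⟩
    · intro h0
      have hz : ∀ i, q i = 0 := by
        intro i
        ext m
        rw [coeff_zero]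
        by_cases hm : m ≤ b
        · have h1 := congrFun h0 (i, (⟨b - m, by omega⟩ : Fin (b + 1)))
          simp only [Pi.zero_apply] at h1
          rwa [Nat.sub_sub_self hm] at h1
        · exact coeff_eq_zero_of_natDegree_lt (lt_of_le_of_lt (hq i) (not_le.1 hm))
      rcases hne with h | h
      · exact h (hz 0)
      · exact h (hz 1)
    · funext i
      have h1 := CRV_rel b q hq (Q i 0) (Q i 1) (Q i 2) (Q i 3) (by exact_mod_cast h3 i)
      rw [hrel i, mul_zero] at h1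
      rw [Pi.zero_apply, ← h1]
      simp only [Matrix.mulVec, dotProduct]
      refine Finset.sum_congr rfl fun s _ => ?_
      rw [← CRV_mon_cast]
      rfl
  rw [← RingHom.map_det] at key
  have := (Int.cast_eq_zero (α := ℚ)).1 key
  exact this

theorem CRV (h : KER_stmt) : CRV_stmt := by
  intro b
  induction b using Nat.strong_induction_on with
  | _ b ih =>
  choose! Cf hCf using ih
  obtain ⟨r, hr⟩ : ∃ r, r = 2 * (b + 1) := ⟨_, rfl⟩
  obtain ⟨C0, hC0⟩ : ∃ C0, C0 = r ^ r + (b + 1) * r := ⟨_, rfl⟩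
  obtain ⟨C, hC⟩ : ∃ C, C = C0 + ∑ m ∈ range b, Cf m := ⟨_, rfl⟩
  have hr1 : 1 ≤ r := by omega
  have hC01 : 1 ≤ C0 := by
    have : 1 ≤ r ^ r := Nat.one_le_pow _ _ hr1
    omega
  refine ⟨C, by omega, ?_⟩
  intro H hH S hS hdet
  obtain ⟨c, hc0, hcb, hc⟩ := h (Ix b) (H ^ (b + 1)) (Nat.one_le_pow _ _ hH)
    {v | ∃ P ∈ S, v = fun s => mon b (P 0) (P 1) (P 2) (P 3) s}
    (by
      rintro v ⟨P, hP, rfl⟩ i
      exact CRV_mon_le b H hH P (hS P hP).1 i)
    (by
      intro M hM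
      choose Q hQ hMQ using hM
      have e : M = mat b Q := by
        ext i j
        rw [hMQ i]
        rfl
      rw [e]
      exact hdet Q hQ)
  have hcard : Fintype.card (Ix b) = r := by
    rw [hr]
    simp [Ix]
  rw [hcard] at hcb
  have hcb' : ∀ i, |c i| ≤ (C0 : ℤ) * (H : ℤ) ^ C0 := by
    intro i
    refine (hcb i).trans ?_
    have h1 : (r * H ^ (b + 1)) ^ r ≤ C0 * H ^ C0 := by
      calc (r * H ^ (b + 1)) ^ r = r ^ r * H ^ ((b + 1) * r) := by rw [mul_pow, pow_mul]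
        _ ≤ C0 * H ^ C0 := Nat.mul_le_mul (by omega) (Nat.pow_le_pow_right hH (by omega))
    exact_mod_cast h1
  obtain ⟨Cp, hCp⟩ : ∃ Cp : Fin 2 → ℤ[X], Cp = fun i =>
    ∑ j : Fin (b + 1), monomial (j : ℕ) (c (i, Fin.rev j)) := ⟨_, rfl⟩
  have hco : ∀ i m, (Cp i).coeff m =
      if h : m < b + 1 then c (i, Fin.rev ⟨m, h⟩) else 0 := by
    intro i m
    rw [hCp]
    exact CRV_coeff b (fun j => c (i, Fin.rev j)) m
  have hcol : ∀ i (l : Fin (b + 1)), (Cp i).coeff (b - (l : ℕ)) = c (i, l) := by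
    intro i l
    have hl := l.2
    rw [hco, dif_pos (show b - (l : ℕ) < b + 1 by omega)]
    congr 2
    apply Fin.ext
    rw [Fin.val_rev]
    show b + 1 - (b - (l : ℕ) + 1) = (l : ℕ)
    omega
  have hcobd : ∀ i m, |(Cp i).coeff m| ≤ (C0 : ℤ) * (H : ℤ) ^ C0 := by
    intro i m
    rw [hco]
    split_ifs with h1
    · exact hcb' _
    · rw [abs_zero]
      positivity
  have hdeg : ∀ i, (Cp i).natDegree ≤ b := by
    intro i
    rw [natDegree_le_iff_coeff_eq_zero]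
    intro N hN
    rw [hco, dif_neg (by omega)]
  obtain ⟨p, hp⟩ : ∃ p : Fin 2 → ℚ[X], p = fun i => (Cp i).map (Int.castRingHom ℚ) := ⟨_, rfl⟩
  have hpi : ∀ i, p i = (Cp i).map (Int.castRingHom ℚ) := fun i => by rw [hp]
  have hpdeg : ∀ i, (p i).natDegree ≤ b := by
    intro i
    rw [hpi]
    exact natDegree_map_le.trans (hdeg i)
  have hpne : p 0 ≠ 0 ∨ p 1 ≠ 0 := by
    by_contra hcon
    push Not at hcon
    apply hc0
    funext s
    obtain ⟨i, l⟩ := s
    have hz : p i = 0 := by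
      fin_cases i
      · exact hcon.1
      · exact hcon.2
    have h2 : (p i).coeff (b - (l : ℕ)) = 0 := by rw [hz, coeff_zero]
    rw [hpi, coeff_map, hcol] at h2
    have h3 : ((c (i, l) : ℤ) : ℚ) = 0 := h2
    rw [Pi.zero_apply]
    exact_mod_cast h3
  have hrel : ∀ P ∈ S, (P 0 : ℚ) * (p 0).eval ((P 2 : ℚ) / P 3) +
      (P 1 : ℚ) * (p 1).eval ((P 2 : ℚ) / P 3) = 0 := by
    intro P hP
    have h3 : (P 3 : ℚ) ≠ 0 := by exact_mod_cast (hS P hP).2
    have h1 := CRV_rel b p hpdeg (P 0) (P 1) (P 2) (P 3) h3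
    have h2 := hc (fun s => mon b (P 0) (P 1) (P 2) (P 3) s) ⟨P, hP, rfl⟩
    have h4 : ∑ s : Ix b, mon b (P 0 : ℚ) (P 1 : ℚ) (P 2 : ℚ) (P 3 : ℚ) s *
        (p s.1).coeff (b - (s.2 : ℕ)) = 0 := by
      have h5 : ((∑ s : Ix b, c s * mon b (P 0) (P 1) (P 2) (P 3) s : ℤ) : ℚ) = 0 := by
        rw [h2]; rfl
      rw [← h5]
      push_cast
      refine Finset.sum_congr rfl fun s _ => ?_
      rw [CRV_mon_cast, hpi, coeff_map, hcol]
      rw [mul_comm]
      rfl
    rw [h4] at h1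
    have h6 : (P 3 : ℚ) ^ b ≠ 0 := pow_ne_zero _ h3
    rcases mul_eq_zero.1 h1.symm with h7 | h7
    · exact absurd h7 h6
    · exact h7
  by_cases hG : IsCoprime (p 0) (p 1)
  · refine ⟨∅, max (-Cp 1).natDegree (Cp 0).natDegree, -Cp 1, Cp 0, by simp, ?_, ?_, ?_, ?_⟩
    · rw [natDegree_neg]
      exact max_le (hdeg 1) (hdeg 0)
    · refine ⟨le_max_left _ _, le_max_right _ _, ?_, ?_⟩
      · rcases max_choice (-Cp 1).natDegree (Cp 0).natDegree with h1 | h1
        · exact Or.inl h1.symm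
        · exact Or.inr h1.symm
      · rw [Polynomial.map_neg, ← hpi, ← hpi]
        exact hG.symm.neg_left
    · intro i
      have h1 : ((C0 : ℕ) : ℤ) * (H : ℤ) ^ C0 ≤ (C : ℤ) * (H : ℤ) ^ C := CRV_const (by omega) hH
      rw [coeff_neg, abs_neg]
      exact ⟨(hcobd 1 i).trans h1, (hcobd 0 i).trans h1⟩
    · intro P hP
      right
      have h1 := hrel P hP
      rw [hpi, hpi] at h1
      simp only [OnCurve, ev, Polynomial.map_neg, eval_neg]
      linarith
  · -- the gcd is not constant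
    obtain ⟨G, hGd⟩ : ∃ G, G = EuclideanDomain.gcd (p 0) (p 1) := ⟨_, rfl⟩
    have hGu : ¬ IsUnit G := by
      rw [hGd, EuclideanDomain.gcd_isUnit_iff]
      exact hG
    have hG0 : G ≠ 0 := by
      intro h0
      rw [hGd, EuclideanDomain.gcd_eq_zero_iff] at h0
      rcases hpne with h1 | h1
      · exact h1 h0.1
      · exact h1 h0.2
    obtain ⟨q0, hq0⟩ : G ∣ p 0 := hGd ▸ EuclideanDomain.gcd_dvd_left (p 0) (p 1)
    obtain ⟨q1, hq1⟩ : G ∣ p 1 := hGd ▸ EuclideanDomain.gcd_dvd_right (p 0) (p 1)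
    obtain ⟨q, hq⟩ : ∃ q : Fin 2 → ℚ[X], q = ![q0, q1] := ⟨_, rfl⟩
    have hqp : ∀ i, p i = G * q i := by
      intro i
      fin_cases i
      · rw [hq]; exact hq0
      · rw [hq]; exact hq1
    obtain ⟨e, he⟩ : ∃ e, e = G.natDegree := ⟨_, rfl⟩
    have he1 : 1 ≤ e := by
      rw [Nat.one_le_iff_ne_zero]
      intro h0
      apply hGu
      rw [he] at h0
      rw [Polynomial.isUnit_iff_degree_eq_zero, degree_eq_natDegree hG0, h0]
      rfl
    have hqd : ∀ i, q i ≠ 0 → e + (q i).natDegree ≤ b := by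
      intro i hi
      have h1 := hpdeg i
      rw [hqp, natDegree_mul hG0 hi, ← he] at h1
      exact h1
    have hqne : q 0 ≠ 0 ∨ q 1 ≠ 0 := by
      rcases hpne with h1 | h1
      · left
        intro h2
        exact h1 (by rw [hqp, h2, mul_zero])
      · right
        intro h2
        exact h1 (by rw [hqp, h2, mul_zero])
    have heb : e ≤ b := by
      rcases hqne with h1 | h1
      · have := hqd 0 h1
        omega
      · have := hqd 1 h1
        omega
    have hqd' : ∀ i, (q i).natDegree ≤ b - e := by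
      intro i
      by_cases hi : q i = 0
      · rw [hi, natDegree_zero]
        exact Nat.zero_le _
      · have := hqd i hi
        omega
    have hlt : b - e < b := by omega
    obtain ⟨hCf1, hIH⟩ := hCf (b - e) hlt
    obtain ⟨R', b', A, B, hR', hb', hcur, hbd, hon⟩ := hIH H hH
      {P | P ∈ S ∧ G.eval ((P 2 : ℚ) / P 3) ≠ 0}
      (fun P hP => hS P hP.1)
      (by
        intro Q hQ
        refine CRV_det (b - e) q hqd' hqne Q (fun i => (hS _ (hQ i).1).2) ?_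
        intro i
        have h1 := hrel (Q i) (hQ i).1
        rw [hqp 0, hqp 1, eval_mul, eval_mul] at h1
        have h2 := (hQ i).2
        have h3 : G.eval ((Q i 2 : ℚ) / Q i 3) * ((Q i 0 : ℚ) * (q 0).eval ((Q i 2 : ℚ) / Q i 3) +
            (Q i 1 : ℚ) * (q 1).eval ((Q i 2 : ℚ) / Q i 3)) = 0 := by
          linear_combination h1
        exact (mul_eq_zero.1 h3).resolve_left h2)
    refine ⟨G.roots.toFinset ∪ R', b', A, B, ?_, by omega, hcur, ?_, ?_⟩
    · have h1 : G.roots.toFinset.card ≤ e := by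
        rw [he]
        exact (Multiset.toFinset_card_le _).trans (card_roots' G)
      have h2 := Finset.card_union_le G.roots.toFinset R'
      omega
    · intro i
      have h0 : Cf (b - e) ≤ C := by
        have h1 : Cf (b - e) ≤ ∑ m ∈ range b, Cf m :=
          Finset.single_le_sum (f := Cf) (fun _ _ => Nat.zero_le _) (Finset.mem_range.2 hlt)
        omega
      have h1 := CRV_const (H := H) h0 hH
      exact ⟨(hbd i).1.trans h1, (hbd i).2.trans h1⟩
    · intro P hP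
      by_cases h1 : G.eval ((P 2 : ℚ) / P 3) = 0
      · left
        rw [Finset.mem_union]
        left
        rw [Multiset.mem_toFinset, mem_roots hG0]
        exact h1
      · rcases hon P ⟨hP, h1⟩ with h2 | h2
        · left
          rw [Finset.mem_union]
          exact Or.inr h2
        · exact Or.inr h2

end Pool.Agent.helper27.TD
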